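import Mathlib

set_option autoImplicit false

namespace Pool.Agent.Results.MP_fd999f_co.Coprime

open Finset Pointwise

theorem prod_lb (E T : Finset ℕ) (hE : ∀ e ∈ E, ∀ e' ∈ E, e ≠ e' → Nat.Coprime e e')
    (hE0 : ∀ e ∈ E, e ≠ 0)
    (hT : ∀ f ∈ T, f ≠ 0) : T.card * E.card ≤ (E * T).card + T.card * T.card := by
  induction T using Finset.induction_on with
  | empty => simp
  | insert f T hf ih =>
    have hf0 : f ≠ 0 := hT f (mem_insert_self _ _)
    have ih := ih (fun g hg => hT g (mem_insert_of_mem hg))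
    have h1 : (E.image (· * f)).card = E.card :=
      card_image_of_injective _ (mul_left_injective₀ hf0)
    have h2 : E * T ∪ E.image (· * f) ⊆ E * insert f T := by
      intro x hx
      rcases mem_union.mp hx with h | h
      · exact mul_subset_mul_left (subset_insert _ _) h
      · obtain ⟨e, he, rfl⟩ := mem_image.mp h
        exact mul_mem_mul he (mem_insert_self _ _)
    have h3 : (E * T ∩ E.image (· * f)).card ≤ T.card := by
      have hex : ∀ x ∈ E * T ∩ E.image (· * f), ∃ g ∈ T, ∃ e ∈ E, ∃ e' ∈ E,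
          x = e * f ∧ x = e' * g := by
        intro x hx
        obtain ⟨ha, hb⟩ := mem_inter.mp hx
        obtain ⟨e', he', g, hg, h⟩ := mem_mul.mp ha
        obtain ⟨e, he, h'⟩ := mem_image.mp hb
        exact ⟨g, hg, e, he, e', he', h'.symm, h.symm⟩
      choose! g hg hx using hex
      refine card_le_card_of_injOn g (fun x hx => hg x hx) ?_
      intro x hx' y hy' hxy
      obtain ⟨a, ha, a', ha', x1, x2⟩ := hx x hx'
      obtain ⟨b, hb, b', hb', y1, y2⟩ := hx y hy'
      have hgf : g x ≠ f := fun h => hf (h ▸ hg x hx')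
      have hg0 : g x ≠ 0 := hT _ (mem_insert_of_mem (hg x hx'))
      rw [← hxy] at y2
      have key : ∀ e e' : ℕ, e ∈ E → e' ∈ E → e * f = e' * g x → Nat.Coprime e e' := by
        intro e e' he he' h
        refine hE e he e' he' ?_
        rintro rfl
        exact hgf (Nat.eq_of_mul_eq_mul_left (Nat.pos_of_ne_zero (hE0 e he)) h).symm
      have cross : a * b' = b * a' := by
        have : a * b' * (f * g x) = b * a' * (f * g x) := by
          calc a * b' * (f * g x) = (a * f) * (b' * g x) := by ring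
            _ = (a' * g x) * (b * f) := by rw [← x1, ← y2, ← x2, ← y1]
            _ = _ := by ring
        exact Nat.eq_of_mul_eq_mul_right (Nat.pos_of_ne_zero (mul_ne_zero hf0 hg0)) this
      have d1 : a ∣ b := (key a a' ha ha' (x1.symm.trans x2)).dvd_of_dvd_mul_right ⟨b', cross.symm⟩
      have d2 : b ∣ a := (key b b' hb hb' (y1.symm.trans y2)).dvd_of_dvd_mul_right ⟨a', cross⟩
      rw [x1, y1, Nat.dvd_antisymm d1 d2]
    have h4 := card_union_add_card_inter (E * T) (E.image (· * f))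
    have h5 := card_le_card h2
    rw [card_insert_of_notMem hf]
    nlinarith

theorem half (X E F T : Finset ℕ) (hX : ∀ x ∈ X, ∀ y ∈ X, x ≠ y → Nat.Coprime x y)
    (hX0 : ∀ x ∈ X, x ≠ 0) (h : ∀ x ∈ X, ∃ e ∈ E, e ≠ 1 ∧ e ∣ x) (hT : T ⊆ F)
    (hT0 : ∀ f ∈ T, f ≠ 0) : T.card * X.card ≤ (E * F).card + T.card * T.card := by
  choose! g h1 h2 h3 using h
  have cop : ∀ x ∈ X, ∀ y ∈ X, x ≠ y → Nat.Coprime (g x) (g y) := fun x hx y hy hxy =>
    Nat.Coprime.coprime_dvd_left (h3 x hx) (Nat.Coprime.coprime_dvd_right (h3 y hy) (hX x hx y hy hxy))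
  have hinj : Set.InjOn g X := by
    intro x hx y hy hxy
    by_contra hne
    have := cop x hx y hy hne
    rw [hxy, Nat.coprime_self] at this
    exact h2 y hy this
  have := prod_lb (X.image g) T (by
    intro e he e' he' hne
    obtain ⟨x, hx, rfl⟩ := mem_image.mp he
    obtain ⟨y, hy, rfl⟩ := mem_image.mp he'
    exact cop x hx y hy (fun h => hne (by rw [h]))) (by
    intro e he
    obtain ⟨x, hx, rfl⟩ := mem_image.mp he
    exact ne_zero_of_dvd_ne_zero (hX0 x hx) (h3 x hx)) hT0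
  rw [card_image_of_injOn hinj] at this
  have h5 : (X.image g * T).card ≤ (E * F).card := by
    refine card_le_card (mul_subset_mul ?_ hT)
    intro e he
    obtain ⟨x, hx, rfl⟩ := mem_image.mp he
    exact h1 x hx
  omega

theorem both (X E F : Finset ℕ) (t : ℕ) (hX : ∀ x ∈ X, ∀ y ∈ X, x ≠ y → Nat.Coprime x y)
    (hX1 : ∀ x ∈ X, 1 < x) (h : X ⊆ E * F) (hE : t + 1 ≤ E.card) (hF : t + 1 ≤ F.card) :
    t * X.card ≤ 2 * ((E * F).card + t * t) := by
  classical
  have sub : ∀ G : Finset ℕ, t + 1 ≤ G.card → ∃ T ⊆ G, T.card = t ∧ ∀ f ∈ T, f ≠ 0 := by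
    intro G hG
    have : t ≤ (G.erase 0).card := by
      have := pred_card_le_card_erase (s := G) (a := 0)
      omega
    obtain ⟨T, h1, h2⟩ := exists_subset_card_eq this
    exact ⟨T, h1.trans (erase_subset _ _), h2, fun f hf => ne_of_mem_erase (h1 hf)⟩
  obtain ⟨T1, a1, b1, c1⟩ := sub F hF
  obtain ⟨T2, a2, b2, c2⟩ := sub E hE
  have e1 := half (X.filter (fun x => ∃ e ∈ E, e ≠ 1 ∧ e ∣ x)) E F T1
    (fun x hx y hy => hX x (mem_filter.mp hx).1 y (mem_filter.mp hy).1)
    (fun x hx => by have := hX1 x (mem_filter.mp hx).1; omega)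
    (fun x hx => (mem_filter.mp hx).2) a1 c1
  have e2 := half (X.filter (fun x => ¬ ∃ e ∈ E, e ≠ 1 ∧ e ∣ x)) F E T2
    (fun x hx y hy => hX x (mem_filter.mp hx).1 y (mem_filter.mp hy).1)
    (fun x hx => by have := hX1 x (mem_filter.mp hx).1; omega)
    (fun x hx => by
      obtain ⟨h1, h2⟩ := mem_filter.mp hx
      obtain ⟨e, he, f, hf, rfl⟩ := mem_mul.mp (h h1)
      refine ⟨f, hf, ?_, Dvd.intro_left _ rfl⟩
      rintro rfl
      have := hX1 _ h1
      exact h2 ⟨e, he, by omega, Dvd.intro _ rfl⟩) a2 c2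
  have e3 := card_filter_add_card_filter_not (s := X) (fun x => ∃ e ∈ E, e ≠ 1 ∧ e ∣ x)
  rw [mul_comm F E, b2] at e2
  rw [b1] at e1
  rw [← e3, mul_add]
  omega

theorem shift_coprime (M s s' : ℕ) (hs' : s' ≤ M) (h : s < s') :
    Nat.Coprime (M.factorial * M.factorial * s + 1) (M.factorial * M.factorial * s' + 1) := by
  refine Nat.coprime_of_dvd fun p hp h1 h2 => ?_
  have h3 : p ∣ M.factorial * M.factorial * (s' - s) := by
    have := Nat.dvd_sub h2 h1
    rwa [Nat.add_sub_add_right, ← Nat.mul_sub] at this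
  have h4 : p ∣ M.factorial := by
    rcases (Nat.Prime.dvd_mul hp).mp h3 with h | h
    · rcases (Nat.Prime.dvd_mul hp).mp h with h | h <;> exact h
    · exact hp.dvd_factorial.mpr (le_trans (Nat.le_of_dvd (by omega) h) (by omega))
  have h5 : p ∣ M.factorial * M.factorial * s := Dvd.dvd.mul_right (Dvd.dvd.mul_right h4 _) _
  exact hp.one_lt.ne' (Nat.dvd_one.mp ((Nat.dvd_add_right h5).mp h1))

theorem result (c₃ c₄ δ : ℝ) (_h₃ : 0 < c₃) (h₄ : 0 < c₄) (hδ : 0 < δ) (N : ℕ) :
    ∃ A : Finset ℕ, 0 ∉ A ∧ N ≤ A.card ∧ N ≤ (A * A).card ∧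
      ¬ ∃ E F : Finset ℕ,
        ((A * A).card : ℝ) ^ δ ≤ E.card ∧ ((A * A).card : ℝ) ^ δ ≤ F.card ∧
        ((E * F).card : ℝ) ≤ c₃ * (A * A).card ∧
        c₄ * (A * A).card ≤ ((((A * A).image (· + 1)) ∩ (E * F)).card : ℝ) := by
  obtain ⟨t, ht⟩ := exists_nat_gt ((2 * c₃ + 2) / c₄)
  rw [div_lt_iff₀ h₄] at ht
  obtain ⟨n0, hn0⟩ := exists_nat_gt (((t : ℝ) + 1) ^ (1 / δ))
  let m := N + n0 + t * t + 1
  let L := (m * m).factorial
  have hL : 0 < L := Nat.factorial_pos _
  let A := (Icc 1 m).image (fun i => L * i)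
  have hA : A.card = m := by
    rw [card_image_of_injective _ (mul_right_injective₀ hL.ne')]
    simp
  have hAA : m ≤ (A * A).card := by
    rw [← hA]
    have : (A.image (fun a => L * a)).card = A.card :=
      card_image_of_injective _ (mul_right_injective₀ hL.ne')
    rw [← this]
    refine card_le_card ?_
    intro x hx
    obtain ⟨a, ha, rfl⟩ := mem_image.mp hx
    exact mul_mem_mul (mem_image.mpr ⟨1, by simp [m], by simp⟩) ha
  have hform : ∀ x ∈ (A * A).image (· + 1), ∃ s, 1 ≤ s ∧ s ≤ m * m ∧ x = L * L * s + 1 := by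
    intro x hx
    obtain ⟨y, hy, rfl⟩ := mem_image.mp hx
    obtain ⟨a, ha, b, hb, rfl⟩ := mem_mul.mp hy
    obtain ⟨i, hi, rfl⟩ := mem_image.mp ha
    obtain ⟨j, hj, rfl⟩ := mem_image.mp hb
    rw [mem_Icc] at hi hj
    exact ⟨i * j, Nat.mul_pos hi.1 hj.1, Nat.mul_le_mul hi.2 hj.2, by ring⟩
  refine ⟨A, ?_, by omega, by omega, ?_⟩
  · intro h0
    obtain ⟨i, hi, h⟩ := mem_image.mp h0
    rw [mem_Icc] at hi
    exact absurd h (Nat.mul_pos hL hi.1).ne'
  rintro ⟨E, F, hE, hF, hEF, hX⟩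
  set n := (A * A).card with hn
  have hpow : (t : ℝ) + 1 ≤ (n : ℝ) ^ δ := by
    have h1 : ((t : ℝ) + 1) ^ (1 / δ) ≤ n := by
      have : (n0 : ℝ) ≤ n := by exact_mod_cast (by omega : n0 ≤ n)
      linarith
    calc (t : ℝ) + 1 = (((t : ℝ) + 1) ^ (1 / δ)) ^ δ := by
          rw [← Real.rpow_mul (by positivity), one_div_mul_cancel hδ.ne', Real.rpow_one]
      _ ≤ _ := Real.rpow_le_rpow (by positivity) h1 hδ.le
  have key := both (((A * A).image (· + 1)) ∩ (E * F)) E F t (by
      intro x hx y hy hxy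
      obtain ⟨s, -, h2, rfl⟩ := hform x (mem_inter.mp hx).1
      obtain ⟨s', -, h2', rfl⟩ := hform y (mem_inter.mp hy).1
      rcases lt_trichotomy s s' with h | h | h
      · exact shift_coprime _ _ _ h2' h
      · exact absurd (by rw [h]) hxy
      · exact (shift_coprime _ _ _ h2 h).symm) (by
      intro x hx
      obtain ⟨s, h1, -, rfl⟩ := hform x (mem_inter.mp hx).1
      have : 0 < L * L * s := by positivity
      omega) inter_subset_right (by exact_mod_cast hpow.trans hE) (by exact_mod_cast hpow.trans hF)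
  have key' : (t : ℝ) * ((((A * A).image (· + 1)) ∩ (E * F)).card : ℝ) ≤
      2 * (((E * F).card : ℝ) + t * t) := by exact_mod_cast key
  have hnt : (t : ℝ) * t < n := by exact_mod_cast (by omega : t * t < n)
  have ht0 : (0 : ℝ) ≤ t := Nat.cast_nonneg _
  have hn0' : (0 : ℝ) ≤ n := Nat.cast_nonneg _
  have e1 := mul_le_mul_of_nonneg_left hX ht0
  have e2 := mul_le_mul_of_nonneg_right ht.le hn0'
  nlinarith

end Pool.Agent.Results.MP_fd999f_co.Coprime
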